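import Pool.Agent.Lib_helper43.Dyn.Planar

set_option autoImplicit false

/-!
# The flux conjecture for kinematic dynamos is false

There is an admissible velocity field on `𝕋³` which is a perfect dynamo but not a fast dynamo. It
alternates between the shears `(2 F(y,z), 0, 0)` and `(0, 2 G(x,z), 0)`; having no third component,
it is not a fast dynamo (antidynamo theorem for planar motion), while the fluxes of suitable ideal
solutions grow exponentially.

`strong` records what is shown about the field: for EVERY diffusivity `ε > 0`, all constants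
`c₀, γ₀ > 0`, every non-zero initial datum and EVERY energy-class solution `B`, the growth bound
`‖B(t)‖ ≥ c₀ e^(γ₀ t) ‖Bin‖` fails at some time. `result` is the disproof of the conjecture.
-/

namespace Pool.Agent.Results.MP_220175_an.PlanarPerfectDynamo

open Pool.Agent.Lib_helper43.Dyn

/-- An admissible velocity field which is a perfect dynamo, has no third component, and for which
no solution of the induction equation with any diffusivity `ε > 0` and any non-zero initial datum
obeys a growth bound. -/
theorem strong : ∃ u : ℝ → R3 → R3, Admissible u ∧ PerfectDynamo u ∧ (∀ t x, u t x 2 = 0) ∧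
    ∀ ε c₀ γ₀ : ℝ, 0 < ε → 0 < c₀ → 0 < γ₀ → ∀ (Bin : R3 → R3) (B : ℝ → R3 → R3),
      0 < l2norm Bin → IsSolution ε u Bin B →
      ∃ t : ℝ, 0 ≤ t ∧ l2norm (B t) < ENNReal.ofReal (c₀ * Real.exp (γ₀ * t)) * l2norm Bin := by
  obtain ⟨u, hu, hp, h3⟩ := exists_perfect_planar
  exact ⟨u, hu, hp, h3, fun ε c₀ γ₀ hε hc hγ Bin B hpos hB =>
    planar_no_growth hu h3 hε hc hγ hpos hB⟩

/-- An admissible velocity field which is a perfect dynamo but not a fast dynamo. -/
theorem result : ∃ u : ℝ → R3 → R3, Admissible u ∧ PerfectDynamo u ∧ ¬ FastDynamo u := by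
  obtain ⟨u, hu, hp, -, hno⟩ := strong
  refine ⟨u, hu, hp, ?_⟩
  rintro ⟨ε, c₀, γ₀, hε, hc, hγ, hfast⟩
  obtain ⟨Bin, B, -, -, hpos, hB, hgrow⟩ := hfast ε hε le_rfl
  obtain ⟨t, ht, hlt⟩ := hno ε c₀ γ₀ hε hc hγ Bin B hpos hB
  exact absurd (hgrow t ht) (not_le.mpr hlt)

end Pool.Agent.Results.MP_220175_an.PlanarPerfectDynamo
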